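import Pool.Agent.Helper1.ZB.Vec

/-! Project ZB: collisions of roundings of multiples of a vector. -/

set_option autoImplicit false

namespace Pool.ZB

open Finset Pool.RA

variable {ι : Type} [Fintype ι]

/-- The real vector `(a / M) k`. -/
noncomputable def F_y (k : ι → ℤ) (M a : ℕ) (i : ι) : ℝ := (a : ℝ) * k i / M

/-- Its rounding. -/
noncomputable def F_fl (k : ι → ℤ) (M a : ℕ) (i : ι) : ℤ := ⌊F_y k M a i⌋

theorem F_fl_eq (k : ι → ℤ) (M a : ℕ) (i : ι) :
    (F_fl k M a i : ℝ) = F_y k M a i - Int.fract (F_y k M a i) := by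
  unfold F_fl
  rw [Int.self_sub_fract]

theorem F_fract_zero (k : ι → ℤ) (M a : ℕ) (i : ι) (h : k i = 0) :
    Int.fract (F_y k M a i) = 0 := by
  unfold F_y
  simp [h]

theorem F_cell {K : ℕ} (hK : 1 ≤ K) (u v : ℝ) (hu : 0 ≤ u) (hv : 0 ≤ v)
    (h : ⌊(K : ℝ) * u⌋₊ = ⌊(K : ℝ) * v⌋₊) : |u - v| ≤ 1 / K := by
  have hK0 : (0 : ℝ) < K := by exact_mod_cast hK
  have h1 := Nat.floor_le (mul_nonneg hK0.le hu)
  have h2 := Nat.lt_floor_add_one ((K : ℝ) * u)
  have h3 := Nat.floor_le (mul_nonneg hK0.le hv)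
  have h4 := Nat.lt_floor_add_one ((K : ℝ) * v)
  rw [h] at h1 h2
  rw [abs_le]
  constructor
  · rw [neg_le, neg_sub, le_div_iff₀ hK0]
    nlinarith
  · rw [le_div_iff₀ hK0]
    nlinarith

theorem F_coll {γ : Type} [Fintype γ] [DecidableEq γ] (k : ι → ℤ) (M K : ℕ) (hK : 1 ≤ K)
    (D n : ℕ) (ZZ : Finset ℕ) (cl : ℕ × ℕ → γ)
    (hc : K ^ (#{i | k i ≠ 0} : ℕ) * Fintype.card γ < n * #ZZ) :
    ∃ p ∈ range n ×ˢ ZZ, ∃ q ∈ range n ×ˢ ZZ, p ≠ q ∧ cl p = cl q ∧
      ∀ i, |Int.fract (F_y k M (D * p.1) i) - Int.fract (F_y k M (D * q.1) i)| ≤ 1 / K := by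
  classical
  have hK0 : (0 : ℝ) < K := by exact_mod_cast hK
  have hfl : ∀ (a : ℕ) (i : ι), ⌊(K : ℝ) * Int.fract (F_y k M a i)⌋₊ < K := by
    intro a i
    rw [Nat.floor_lt (mul_nonneg hK0.le (Int.fract_nonneg _))]
    have := Int.fract_lt_one (F_y k M a i)
    nlinarith
  let f : ℕ × ℕ → ({i // k i ≠ 0} → Fin K) × γ := fun p =>
    (fun i => ⟨⌊(K : ℝ) * Int.fract (F_y k M (D * p.1) i.1)⌋₊, hfl _ _⟩, cl p)
  have hcard : #(univ : Finset (({i // k i ≠ 0} → Fin K) × γ)) < #(range n ×ˢ ZZ) := by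
    rw [card_univ, Fintype.card_prod, Fintype.card_fun, Fintype.card_fin, Fintype.card_subtype,
      card_product, card_range]
    exact hc
  obtain ⟨p, hp, q, hq, hpq, he⟩ :=
    exists_ne_map_eq_of_card_lt_of_maps_to hcard (f := f) (fun a _ => mem_univ _)
  refine ⟨p, hp, q, hq, hpq, congrArg Prod.snd he, fun i => ?_⟩
  by_cases hi : k i = 0
  · rw [F_fract_zero k M _ i hi, F_fract_zero k M _ i hi, sub_self, abs_zero]
    positivity
  · have h1 := congrFun (congrArg Prod.fst he) ⟨i, hi⟩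
    have h2 := congrArg Fin.val h1
    exact F_cell hK _ _ (Int.fract_nonneg _) (Int.fract_nonneg _) h2

/-- Choice of the parameters: the largest coordinate and the number of multiples. -/
theorem F_param (r : ι → ℕ) (hr : ∀ i, (r i).Prime) (k : ι → ℤ) (L l w Δ : ℝ) (hL : 0 < L)
    (hΔ : 1 ≤ Δ) (hw1 : 1 ≤ w) (hk1 : L ≤ 2 * nm r k) (hk2 : nm r k ≤ 2 * L)
    (hl : ∑ i with k i ≠ 0, Real.log (r i) ≤ l) :
    ∃ (j : ι) (M D n : ℕ), 0 < M ∧ 0 < D ∧ 0 < l ∧ L / (8 * Δ ^ 2 * w * l) < n ∧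
      (M : ℝ) = |(k j : ℝ)| ∧ 3 * Δ * w ≤ D ∧
      (∀ a b : ℕ, a < b → b < n → Δ * w / L ≤ (D * b - D * a : ℝ) / M ∧
        (D * b - D * a : ℝ) / M ≤ 1 / Δ) := by
  classical
  have hne : Nonempty ι := by
    by_contra h
    rw [not_nonempty_iff] at h
    have : nm r k = 0 := by unfold nm nmR; simp
    linarith
  obtain ⟨j, _, hj⟩ := exists_max_image (univ : Finset ι) (fun i => (k i).natAbs) univ_nonempty
  set M : ℕ := (k j).natAbs with hM
  have hMr : (M : ℝ) = |(k j : ℝ)| := by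
    rw [hM, Nat.cast_natAbs]
    push_cast
    rfl
  have hb : ∀ i, |(k i : ℝ)| ≤ M := by
    intro i
    have h1 := hj i (mem_univ i)
    have h2 : (((k i).natAbs : ℕ) : ℝ) ≤ (M : ℝ) := by exact_mod_cast h1
    rw [Nat.cast_natAbs] at h2
    push_cast at h2
    exact h2
  have hsum : nm r k ≤ M * l := by
    have h1 := nmR_le_of_bd r (univ.filter fun i => k i ≠ 0) (fun i => (k i : ℝ)) M hb
      (by
        intro i hi
        rw [mem_filter, not_and, not_not] at hi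
        rw [hi (mem_univ i)]
        simp)
    refine h1.trans (mul_le_mul_of_nonneg_left hl (Nat.cast_nonneg _))
  have hM0 : (0 : ℝ) < M := by
    rcases Nat.eq_zero_or_pos M with h | h
    · rw [h, Nat.cast_zero, zero_mul] at hsum
      linarith
    · exact_mod_cast h
  have hl0 : 0 < l := by
    by_contra h
    have : (M : ℝ) * l ≤ 0 := mul_nonpos_of_nonneg_of_nonpos hM0.le (not_lt.1 h)
    linarith
  have hM2 : (M : ℝ) * Real.log 2 ≤ 2 * L := by
    rw [hMr]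
    exact (coord_le r (fun i => (hr i).two_le) k j).trans hk2
  have hw0 : 0 < w := by linarith
  have hΔ0 : 0 < Δ := by linarith
  have hΔw : 1 ≤ Δ * w := by nlinarith
  set D : ℕ := ⌈3 * Δ * w⌉₊ with hD
  have hD1 : 3 * Δ * w ≤ D := Nat.le_ceil _
  have hD2 : (D : ℝ) ≤ 4 * Δ * w := by
    have := (Nat.ceil_lt_add_one (show 0 ≤ 3 * Δ * w by positivity)).le
    nlinarith
  have hD0 : (0 : ℝ) < D := by nlinarith
  set n : ℕ := ⌊(M : ℝ) / (Δ * D)⌋₊ + 1 with hn
  have hn1 : (M : ℝ) / (Δ * D) < n := by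
    rw [hn]
    push_cast
    exact Nat.lt_floor_add_one _
  refine ⟨j, M, D, n, by exact_mod_cast hM0, by exact_mod_cast hD0, hl0, ?_, hMr, hD1, ?_⟩
  · refine lt_of_le_of_lt ?_ hn1
    rw [div_le_div_iff₀ (by positivity) (by positivity)]
    have h1 : L ≤ 2 * (M * l) := hk1.trans (by linarith)
    calc L * (Δ * D) ≤ (2 * (M * l)) * (Δ * D) := by
          apply mul_le_mul_of_nonneg_right h1
          positivity
      _ ≤ (2 * (M * l)) * (Δ * (4 * Δ * w)) := by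
          apply mul_le_mul_of_nonneg_left _ (by positivity)
          exact mul_le_mul_of_nonneg_left hD2 hΔ0.le
      _ = M * (8 * Δ ^ 2 * w * l) := by ring
  · intro a b hab hbn
    have hab' : (a : ℝ) + 1 ≤ b := by exact_mod_cast hab
    constructor
    · rw [div_le_div_iff₀ hL hM0]
      have hlog : 0.6931471803 < Real.log 2 := Real.log_two_gt_d9
      have h1 : (M : ℝ) * 0.6931471803 ≤ 2 * L := by nlinarith
      have h2 : 3 * Δ * w ≤ D * b - D * a := by nlinarith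
      have h3 : Δ * w * M ≤ 3 * Δ * w * L := by
        have h4 : (M : ℝ) ≤ 3 * L := by nlinarith
        have h5 : 0 < Δ * w := by positivity
        nlinarith
      nlinarith
    · rw [div_le_div_iff₀ hM0 hΔ0, one_mul]
      have h1 : (b : ℝ) ≤ (M : ℝ) / (Δ * D) := by
        have h2 : b ≤ ⌊(M : ℝ) / (Δ * D)⌋₊ := by omega
        have h3 : ((⌊(M : ℝ) / (Δ * D)⌋₊ : ℕ) : ℝ) ≤ (M : ℝ) / (Δ * D) :=
          Nat.floor_le (by positivity)
        exact le_trans (by exact_mod_cast h2) h3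
      rw [le_div_iff₀ (by positivity)] at h1
      have h0 : (0 : ℝ) ≤ a := Nat.cast_nonneg _
      have h4 : 0 ≤ (D : ℝ) * a * Δ := by positivity
      nlinarith

end Pool.ZB
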