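import Pool.Agent.Helper1.ZB.Coll

/-! Project ZB: the two pigeonholes (modulo `P`, and at the real place). -/

set_option autoImplicit false

namespace Pool.ZB

open Finset Pool.RA

variable {ι : Type} [Fintype ι]

/-- The difference of two roundings is near the difference of the two multiples. -/
theorem F_near (r : ι → ℕ) (k : ι → ℤ) (M K : ℕ) (a b : ℕ) (l : ℝ)
    (hl : ∑ i with k i ≠ 0, Real.log (r i) ≤ l)
    (h : ∀ i, |Int.fract (F_y k M b i) - Int.fract (F_y k M a i)| ≤ 1 / K) :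
    nmR r (fun i => ((F_fl k M b i - F_fl k M a i : ℤ) : ℝ) -
      (((b : ℝ) - a) / M) * k i) ≤ l / K := by
  classical
  have h1 : (fun i => ((F_fl k M b i - F_fl k M a i : ℤ) : ℝ) - (((b : ℝ) - a) / M) * k i) =
      fun i => -(Int.fract (F_y k M b i) - Int.fract (F_y k M a i)) := by
    funext i
    rw [Int.cast_sub, F_fl_eq, F_fl_eq]
    unfold F_y
    ring
  rw [h1]
  refine (nmR_le_of_bd r (univ.filter fun i => k i ≠ 0) _ (1 / K) ?_ ?_).trans ?_
  · intro i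
    rw [abs_neg]
    exact h i
  · intro i hi
    rw [mem_filter, not_and, not_not] at hi
    rw [F_fract_zero k M _ i (hi (mem_univ i)), F_fract_zero k M _ i (hi (mem_univ i))]
    simp
  · rw [one_div_mul_eq_div]
    exact div_le_div_of_nonneg_right hl (Nat.cast_nonneg _)

/-- `x` near `α k` with `α` not too small is nonzero. -/
theorem F_ne_zero (r : ι → ℕ) (hr : ∀ i, (r i).Prime) (k : ι → ℤ) (x : ι → ℤ) (α w : ℝ) (j : ι)
    (hw : 0 < w) (hj : 3 * w ≤ |α * k j|)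
    (h : nmR r (fun i => (x i : ℝ) - α * (k i : ℝ)) ≤ w) : x ≠ 0 := by
  intro h0
  have h1 : |(x j : ℝ) - α * k j| * Real.log (r j) ≤ w := by
    refine le_trans ?_ h
    exact single_le_sum (f := fun i => |(x i : ℝ) - α * k i| * Real.log (r i))
      (fun i _ => mul_nonneg (abs_nonneg _) (Real.log_natCast_nonneg _)) (mem_univ j)
  have h2 : Real.log 2 ≤ Real.log (r j) :=
    Real.log_le_log (by norm_num) (by exact_mod_cast (hr j).two_le)
  have h3 : 0.6931471803 < Real.log 2 := Real.log_two_gt_d9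
  have h4 : (x j : ℝ) = 0 := by
    rw [h0]
    simp
  rw [h4, zero_sub, abs_neg] at h1
  nlinarith [abs_nonneg (α * (k j : ℝ))]

theorem F_alpha_k {Δ w : ℝ} (M D : ℕ) (j : ι) (k : ι → ℤ) (a b : ℕ) (hM : 0 < M) (hΔ : 1 ≤ Δ)
    (hw : 1 ≤ w) (hMj : (M : ℝ) = |(k j : ℝ)|) (hD : 3 * Δ * w ≤ D) (hab : a < b) :
    3 * w ≤ |((D * b - D * a : ℝ) / M) * k j| := by
  have hM0 : (0 : ℝ) < M := by exact_mod_cast hM
  have hab' : (a : ℝ) + 1 ≤ b := by exact_mod_cast hab
  rw [abs_mul, abs_div, ← hMj, abs_of_pos hM0, div_mul_cancel₀ _ hM0.ne']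
  have h1 : (D : ℝ) ≤ D * b - D * a := by nlinarith [Nat.cast_nonneg (α := ℝ) D]
  refine le_trans ?_ (le_abs_self _)
  nlinarith

/-- FIRST PIGEONHOLE, modulo `P`. -/
theorem F_padic (r : ι → ℕ) (hr : ∀ i, (r i).Prime) (hinj : Function.Injective r) (P : ℕ)
    (hP : 0 < P) (h : ∀ i, (r i).Coprime P) (k : ι → ℤ) (L l w Δ Y : ℝ) (K : ℕ) (hK : 1 ≤ K)
    (ZZ : Finset ℕ) (hL : 0 < L) (hΔ : 1 ≤ Δ) (hw1 : 1 ≤ w) (hk1 : L ≤ 2 * nm r k)
    (hk2 : nm r k ≤ 2 * L) (hl : ∑ i with k i ≠ 0, Real.log (r i) ≤ l)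
    (hZ : ∀ s ∈ ZZ, Y / 2 < s ∧ (s : ℝ) ≤ Y)
    (hZr : ∀ s ∈ ZZ, ∀ q, q.Prime → q ∣ s → ∃ i, r i = q)
    (hZP : ∀ s ∈ ZZ, ∀ s' ∈ ZZ, s ≡ s' [MOD P] → s = s')
    (hw : l / K + 2 * Real.log Y ≤ w)
    (hc : (K : ℝ) ^ #{i | k i ≠ 0} * P * (8 * Δ ^ 2 * w * l) < L * #ZZ) :
    ∃ (x : ι → ℤ) (α : ℝ), x ≠ 0 ∧ chi r P h x = 1 ∧
      nmR r (fun i => (x i : ℝ) - α * (k i : ℝ)) ≤ w ∧
      |lamR r (fun i => (x i : ℝ) - α * (k i : ℝ))| ≤ l / K + Real.log 2 ∧
      Δ * w / L ≤ α ∧ α ≤ 1 / Δ := by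
  classical
  have : NeZero P := ⟨hP.ne'⟩
  obtain ⟨j, M, D, n, hM, hD, hl0, hn, hMj, hD3, hα⟩ := F_param r hr k L l w Δ hL hΔ hw1 hk1 hk2 hl
  have hsne : ∀ s ∈ ZZ, s ≠ 0 := by
    intro s hs h0
    have h1 := hZ s hs
    rw [h0, Nat.cast_zero] at h1
    linarith
  have hcard : K ^ (#{i | k i ≠ 0} : ℕ) * Fintype.card (ZMod P)ˣ < n * #ZZ := by
    have h1 : Fintype.card (ZMod P)ˣ ≤ P := by
      rw [ZMod.card_units_eq_totient]
      exact Nat.totient_le P
    have h2 : K ^ (#{i | k i ≠ 0} : ℕ) * P < n * #ZZ := by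
      have h3 : ((K ^ (#{i | k i ≠ 0} : ℕ) * P : ℕ) : ℝ) < ((n * #ZZ : ℕ) : ℝ) := by
        push_cast
        have hpos : 0 < 8 * Δ ^ 2 * w * l := by positivity
        have hZ0 : (0 : ℝ) < #ZZ := by
          rcases Nat.eq_zero_or_pos #ZZ with h0 | h0
          · rw [h0, Nat.cast_zero, mul_zero] at hc
            have : 0 ≤ (K : ℝ) ^ (#{i | k i ≠ 0} : ℕ) * P * (8 * Δ ^ 2 * w * l) := by positivity
            linarith
          · exact_mod_cast h0
        have h4 : (K : ℝ) ^ (#{i | k i ≠ 0} : ℕ) * P < L * #ZZ / (8 * Δ ^ 2 * w * l) := by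
          rw [lt_div_iff₀ hpos]
          exact hc
        refine h4.trans ?_
        rw [mul_div_right_comm]
        exact mul_lt_mul_of_pos_right hn hZ0
      exact_mod_cast h3
    exact lt_of_le_of_lt (Nat.mul_le_mul_left _ h1) h2
  obtain ⟨p, hp, q, hq, hpq, hcl, hfr⟩ := F_coll k M K hK D n ZZ
    (fun p => chi r P h (F_fl k M (D * p.1) + F_vec r p.2)) hcard
  rw [mem_product, mem_range] at hp hq
  -- the first components differ
  have hne1 : p.1 ≠ q.1 := by
    intro h1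
    apply hpq
    refine Prod.ext h1 ?_
    simp only [h1, chi_add] at hcl
    have h2 := mul_left_cancel hcl
    have h3 : ((p.2 : ℕ) : ZMod P) = ((q.2 : ℕ) : ZMod P) := by
      rw [← F_chi_vec r hr hinj P h p.2 (hsne _ hp.2) (hZr _ hp.2),
        ← F_chi_vec r hr hinj P h q.2 (hsne _ hq.2) (hZr _ hq.2), h2]
    exact hZP _ hp.2 _ hq.2 ((ZMod.natCast_eq_natCast_iff _ _ _).1 h3)
  -- without loss of generality `p.1 < q.1`
  have key : ∀ p q : ℕ × ℕ, p.1 < n ∧ p.2 ∈ ZZ → q.1 < n ∧ q.2 ∈ ZZ → p.1 < q.1 →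
      chi r P h (F_fl k M (D * p.1) + F_vec r p.2) =
        chi r P h (F_fl k M (D * q.1) + F_vec r q.2) →
      (∀ i, |Int.fract (F_y k M (D * p.1) i) - Int.fract (F_y k M (D * q.1) i)| ≤ 1 / K) →
      ∃ (x : ι → ℤ) (α : ℝ), x ≠ 0 ∧ chi r P h x = 1 ∧
      nmR r (fun i => (x i : ℝ) - α * (k i : ℝ)) ≤ w ∧
      |lamR r (fun i => (x i : ℝ) - α * (k i : ℝ))| ≤ l / K + Real.log 2 ∧
      Δ * w / L ≤ α ∧ α ≤ 1 / Δ := by
    clear hcl hfr hne1 hp hq hpq p q
    intro p q hp hq hlt hcl hfr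
    set α : ℝ := (D * q.1 - D * p.1 : ℝ) / M with hαd
    obtain ⟨hα1, hα2⟩ := hα p.1 q.1 hlt hq.1
    set x : ι → ℤ := (F_fl k M (D * q.1) + F_vec r q.2) - (F_fl k M (D * p.1) + F_vec r p.2)
      with hx
    set y : ι → ℝ := fun i =>
      ((F_fl k M (D * q.1) i - F_fl k M (D * p.1) i : ℤ) : ℝ) -
        ((((D * q.1 : ℕ) : ℝ) - ((D * p.1 : ℕ) : ℝ)) / M) * k i with hy
    set z : ι → ℤ := F_vec r q.2 + -F_vec r p.2 with hz
    have hxy : (fun i => (x i : ℝ) - α * k i) = y + fun i => (z i : ℝ) := by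
      funext i
      simp only [hx, hy, hz, hαd, Pi.add_apply, Pi.sub_apply, Pi.neg_apply]
      push_cast
      ring
    have hny : nmR r y ≤ l / K := by
      apply F_near r k M K _ _ l hl
      intro i
      rw [abs_sub_comm]
      exact hfr i
    have hp1 := hZ _ hp.2
    have hq1 := hZ _ hq.2
    have hp0 : (0 : ℝ) < p.2 := by exact_mod_cast Nat.pos_of_ne_zero (hsne _ hp.2)
    have hq0 : (0 : ℝ) < q.2 := by exact_mod_cast Nat.pos_of_ne_zero (hsne _ hq.2)
    have hnz : nm r z ≤ 2 * Real.log Y := by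
      refine (nm_add_le r _ _).trans ?_
      rw [nm_neg, F_nm_vec r hr hinj _ (hsne _ hp.2) (hZr _ hp.2),
        F_nm_vec r hr hinj _ (hsne _ hq.2) (hZr _ hq.2)]
      have h1 := Real.log_le_log hp0 hp1.2
      have h2 := Real.log_le_log hq0 hq1.2
      linarith
    have hlz : |lam r z| ≤ Real.log 2 := by
      have h0 : lam r z = Real.log q.2 - Real.log p.2 := by
        have h1 : z = F_vec r q.2 - F_vec r p.2 := by
          rw [hz, sub_eq_add_neg]
        rw [h1, lam_sub, F_lam_vec r hr hinj _ (hsne _ hp.2) (hZr _ hp.2),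
          F_lam_vec r hr hinj _ (hsne _ hq.2) (hZr _ hq.2)]
      rw [h0, abs_le]
      constructor
      · have h2 : Real.log p.2 ≤ Real.log (2 * q.2) :=
          Real.log_le_log hp0 (by linarith [hp1.2, hq1.1])
        rw [Real.log_mul (by norm_num) hq0.ne'] at h2
        linarith
      · have h2 : Real.log q.2 ≤ Real.log (2 * p.2) :=
          Real.log_le_log hq0 (by linarith [hq1.2, hp1.1])
        rw [Real.log_mul (by norm_num) hp0.ne'] at h2
        linarith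
    have hnx : nmR r (fun i => (x i : ℝ) - α * k i) ≤ w := by
      rw [hxy]
      refine (nmR_add_le r _ _).trans (le_trans ?_ hw)
      exact add_le_add hny hnz
    refine ⟨x, α, ?_, ?_, hnx, ?_, ?_, hα2⟩
    · exact F_ne_zero r hr k x α w j (by linarith)
        (F_alpha_k M D j k p.1 q.1 hM hΔ hw1 hMj hD3 hlt) hnx
    · rw [hx, chi_sub, hcl, mul_inv_cancel]
    · rw [hxy]
      have h1 : lamR r (y + fun i => (z i : ℝ)) = lamR r y + lam r z := by
        unfold lam lamR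
        rw [← sum_add_distrib]
        refine sum_congr rfl fun i _ => ?_
        rw [Pi.add_apply, add_mul]
      rw [h1]
      exact (abs_add_le _ _).trans (add_le_add ((F_lamR_le r y).trans hny) hlz)
    · exact hα1
  rcases lt_or_gt_of_ne hne1 with hlt | hlt
  · exact key p q hp hq hlt hcl hfr
  · refine key q p hq hp hlt hcl.symm fun i => ?_
    rw [abs_sub_comm]
    exact hfr i

/-- FIRST PIGEONHOLE at the real place. -/
theorem F_real (r : ι → ℕ) (hr : ∀ i, (r i).Prime) (_hinj : Function.Injective r)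
    (k : ι → ℤ) (L l w Δ n0 : ℝ) (K : ℕ) (hK : 1 ≤ K) (hL : 0 < L) (hΔ : 1 ≤ Δ) (hw1 : 1 ≤ w)
    (hk1 : L ≤ 2 * nm r k) (hk2 : nm r k ≤ 2 * L) (hl : ∑ i with k i ≠ 0, Real.log (r i) ≤ l)
    (hw : l / K ≤ w) (hn0 : 0 ≤ n0) (hlam : |lam r k| ≤ 1)
    (hc : (K : ℝ) ^ #{i | k i ≠ 0} * ((2 * l + 4) * Real.exp n0) * (8 * Δ ^ 2 * w * l) < L) :
    ∃ (x : ι → ℤ) (α : ℝ), x ≠ 0 ∧ |lam r x| ≤ Real.exp (-n0) ∧
      nmR r (fun i => (x i : ℝ) - α * (k i : ℝ)) ≤ w ∧ Δ * w / L ≤ α ∧ α ≤ 1 / Δ := by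
  classical
  obtain ⟨j, M, D, n, hM, hD, hl0, hn, hMj, hD3, hα⟩ := F_param r hr k L l w Δ hL hΔ hw1 hk1 hk2 hl
  have hM0 : (0 : ℝ) < M := by exact_mod_cast hM
  set Q : ℕ := ⌊(2 * l + 2) * Real.exp n0⌋₊ + 1 with hQ
  have hexp : 1 ≤ Real.exp n0 := Real.one_le_exp hn0
  have hexp0 := Real.exp_pos n0
  have hQle : (Q : ℝ) ≤ (2 * l + 4) * Real.exp n0 := by
    rw [hQ]
    push_cast
    have h1 := Nat.floor_le (show 0 ≤ (2 * l + 2) * Real.exp n0 by positivity)
    nlinarith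
  have hn1 : 1 ≤ n := by
    have h1 : 0 < L / (8 * Δ ^ 2 * w * l) := by positivity
    have h2 : (0 : ℝ) < n := h1.trans hn
    exact_mod_cast h2
  -- bound of the logarithm of a rounding
  have hlamfl : ∀ j, j < n → |lam r (F_fl k M (D * j))| ≤ l + 1 := by
    intro j hj
    have h1 : lam r (F_fl k M (D * j)) = lamR r (F_y k M (D * j)) -
        lamR r (fun i => Int.fract (F_y k M (D * j) i)) := by
      unfold lam lamR
      rw [← sum_sub_distrib]
      refine sum_congr rfl fun i _ => ?_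
      beta_reduce
      rw [F_fl_eq]
      ring
    have h2 : lamR r (F_y k M (D * j)) = (((D * j : ℕ) : ℝ) / M) * lam r k := by
      unfold lam lamR F_y
      rw [mul_sum]
      refine sum_congr rfl fun i _ => ?_
      ring
    have h3 : |(((D * j : ℕ) : ℝ) / M) * lam r k| ≤ 1 := by
      rw [abs_mul]
      have h4 : |((D * j : ℕ) : ℝ) / M| ≤ 1 := by
        rw [abs_of_nonneg (by positivity)]
        rcases Nat.eq_zero_or_pos j with h0 | h0
        · rw [h0]
          simp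
        · have h5 := (hα 0 j h0 hj).2
          have h6 : (1 : ℝ) / Δ ≤ 1 := by
            rw [div_le_one (by linarith)]
            exact hΔ
          have h7 : ((D * j : ℕ) : ℝ) / M = (D * j - D * ((0 : ℕ) : ℝ) : ℝ) / M := by
            push_cast
            ring
          rw [h7]
          exact h5.trans h6
      calc _ ≤ 1 * 1 := mul_le_mul h4 hlam (abs_nonneg _) zero_le_one
        _ = 1 := one_mul 1
    have h4 : |lamR r (fun i => Int.fract (F_y k M (D * j) i))| ≤ l := by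
      refine (F_lamR_le r _).trans ?_
      refine (nmR_le_of_bd r (univ.filter fun i => k i ≠ 0) _ 1 ?_ ?_).trans ?_
      · intro i
        rw [abs_of_nonneg (Int.fract_nonneg _)]
        exact (Int.fract_lt_one _).le
      · intro i hi
        rw [mem_filter, not_and, not_not] at hi
        exact F_fract_zero k M _ i (hi (mem_univ i))
      · rw [one_mul]
        exact hl
    rw [h1, h2]
    have := abs_sub _ _ |>.trans (add_le_add h3 h4)
    linarith
  have hcell : ∀ p : ℕ × ℕ,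
      (⌊(lam r (F_fl k M (D * p.1)) + (l + 1)) * Real.exp n0⌋₊ % Q) < Q := by
    intro p
    exact Nat.mod_lt _ (by omega)
  have hmod : ∀ j, j < n →
      ⌊(lam r (F_fl k M (D * j)) + (l + 1)) * Real.exp n0⌋₊ % Q =
        ⌊(lam r (F_fl k M (D * j)) + (l + 1)) * Real.exp n0⌋₊ := by
    intro j hj
    apply Nat.mod_eq_of_lt
    rw [hQ, Nat.lt_succ_iff]
    apply Nat.floor_le_floor
    apply mul_le_mul_of_nonneg_right _ hexp0.le
    have := (abs_le.1 (hlamfl j hj)).2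
    linarith
  have hcard : K ^ (#{i | k i ≠ 0} : ℕ) * Fintype.card (Fin Q) < n * #({1} : Finset ℕ) := by
    rw [Fintype.card_fin, card_singleton, mul_one]
    have h3 : ((K ^ (#{i | k i ≠ 0} : ℕ) * Q : ℕ) : ℝ) < (n : ℝ) := by
      push_cast
      have hpos : 0 < 8 * Δ ^ 2 * w * l := by positivity
      have h4 : (K : ℝ) ^ (#{i | k i ≠ 0} : ℕ) * ((2 * l + 4) * Real.exp n0) <
          L / (8 * Δ ^ 2 * w * l) := by
        rw [lt_div_iff₀ hpos]
        exact hc
      have h5 : (K : ℝ) ^ (#{i | k i ≠ 0} : ℕ) * Q ≤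
          (K : ℝ) ^ (#{i | k i ≠ 0} : ℕ) * ((2 * l + 4) * Real.exp n0) :=
        mul_le_mul_of_nonneg_left hQle (by positivity)
      exact lt_of_le_of_lt h5 (h4.trans hn)
    exact_mod_cast h3
  obtain ⟨p, hp, q, hq, hpq, hcl, hfr⟩ := F_coll k M K hK D n {1}
    (fun p => (⟨_, hcell p⟩ : Fin Q)) hcard
  rw [mem_product, mem_range, mem_singleton] at hp hq
  have hcl' := congrArg Fin.val hcl
  simp only at hcl'
  rw [hmod _ hp.1, hmod _ hq.1] at hcl'
  have hne1 : p.1 ≠ q.1 := by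
    intro h1
    exact hpq (Prod.ext h1 (hp.2.trans hq.2.symm))
  have key : ∀ a b : ℕ, a < n → b < n → a < b →
      ⌊(lam r (F_fl k M (D * a)) + (l + 1)) * Real.exp n0⌋₊ =
        ⌊(lam r (F_fl k M (D * b)) + (l + 1)) * Real.exp n0⌋₊ →
      (∀ i, |Int.fract (F_y k M (D * a) i) - Int.fract (F_y k M (D * b) i)| ≤ 1 / K) →
      ∃ (x : ι → ℤ) (α : ℝ), x ≠ 0 ∧ |lam r x| ≤ Real.exp (-n0) ∧
      nmR r (fun i => x i - α * k i) ≤ w ∧ Δ * w / L ≤ α ∧ α ≤ 1 / Δ := by
    intro a b ha hb hlt hcl hfr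
    obtain ⟨hα1, hα2⟩ := hα a b hlt hb
    set α : ℝ := (D * b - D * a : ℝ) / M with hαd
    set x : ι → ℤ := F_fl k M (D * b) - F_fl k M (D * a) with hx
    have hnx : nmR r (fun i => (x i : ℝ) - α * k i) ≤ w := by
      have h1 := F_near r k M K (D * a) (D * b) l hl (fun i => by
        rw [abs_sub_comm]
        exact hfr i)
      refine le_trans (le_of_eq ?_) (h1.trans hw)
      congr 1
      funext i
      simp only [hx, hαd, Pi.sub_apply]
      push_cast
      ring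
    refine ⟨x, α, ?_, ?_, hnx, ?_, hα2⟩
    · exact F_ne_zero r hr k x α w j (by linarith)
        (F_alpha_k M D j k a b hM hΔ hw1 hMj hD3 hlt) hnx
    · rw [hx, lam_sub]
      have e1 := (abs_le.1 (hlamfl a ha)).1
      have e2 := (abs_le.1 (hlamfl b hb)).1
      have f1 := Nat.floor_le (mul_nonneg (show 0 ≤ lam r (F_fl k M (D * a)) + (l + 1) by linarith)
        hexp0.le)
      have f2 := Nat.lt_floor_add_one ((lam r (F_fl k M (D * a)) + (l + 1)) * Real.exp n0)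
      have f3 := Nat.floor_le (mul_nonneg (show 0 ≤ lam r (F_fl k M (D * b)) + (l + 1) by linarith)
        hexp0.le)
      have f4 := Nat.lt_floor_add_one ((lam r (F_fl k M (D * b)) + (l + 1)) * Real.exp n0)
      rw [hcl] at f1 f2
      rw [Real.exp_neg, ← one_div, abs_le]
      constructor
      · rw [neg_le, neg_sub, le_div_iff₀ hexp0]
        nlinarith
      · rw [le_div_iff₀ hexp0]
        nlinarith
    · exact hα1
  rcases lt_or_gt_of_ne hne1 with hlt | hlt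
  · exact key _ _ hp.1 hq.1 hlt hcl' hfr
  · refine key _ _ hq.1 hp.1 hlt hcl'.symm fun i => ?_
    rw [abs_sub_comm]
    exact hfr i

end Pool.ZB
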