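import Pool.Agent.Helper44.RA.V1

/-! Project ZB: the exponent vector of a positive integer. -/

set_option autoImplicit false

namespace Pool.ZB

open Finset Pool.RA

variable {ι : Type} [Fintype ι]

/-- The exponent vector of `s` with respect to the primes `r i`. -/
def F_vec (r : ι → ℕ) (s : ℕ) : ι → ℤ := fun i => (s.factorization (r i) : ℤ)

theorem F_vec_prod (r : ι → ℕ) (hr : ∀ i, (r i).Prime) (hinj : Function.Injective r) (s : ℕ)
    (hs : s ≠ 0) (h : ∀ q, q.Prime → q ∣ s → ∃ i, r i = q) :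
    ∏ i, r i ^ (s.factorization (r i)) = s := by
  classical
  conv_rhs => rw [← Nat.prod_factorization_pow_eq_self hs]
  rw [Finsupp.prod]
  have h1 : s.factorization.support ⊆ (univ : Finset ι).image r := by
    intro q hq
    rw [Nat.support_factorization, Nat.mem_primeFactors] at hq
    obtain ⟨i, hi⟩ := h q hq.1 hq.2.1
    exact mem_image.2 ⟨i, mem_univ i, hi⟩
  rw [prod_subset h1 (f := fun q => q ^ s.factorization q), prod_image]
  · intro a _ b _ hab
    exact hinj hab
  · intro q _ hq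
    rw [Finsupp.notMem_support_iff] at hq
    rw [hq, pow_zero]

theorem F_nu_vec (r : ι → ℕ) (hr : ∀ i, (r i).Prime) (hinj : Function.Injective r) (s : ℕ)
    (hs : s ≠ 0) (h : ∀ q, q.Prime → q ∣ s → ∃ i, r i = q) : Nu r (F_vec r s) = s := by
  have := F_vec_prod r hr hinj s hs h
  unfold Nu F_vec
  simpa using this

theorem F_de_vec (r : ι → ℕ) (s : ℕ) : De r (F_vec r s) = 1 := by
  unfold De F_vec
  refine prod_eq_one fun i _ => ?_
  have : (-(s.factorization (r i) : ℤ)).toNat = 0 := by omega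
  rw [this, pow_zero]

theorem F_nm_vec (r : ι → ℕ) (hr : ∀ i, (r i).Prime) (hinj : Function.Injective r) (s : ℕ)
    (hs : s ≠ 0) (h : ∀ q, q.Prime → q ∣ s → ∃ i, r i = q) :
    nm r (F_vec r s) = Real.log s := by
  rw [← log_nu_add r (fun i => (hr i).one_le), F_nu_vec r hr hinj s hs h, F_de_vec]
  simp

theorem F_lam_vec (r : ι → ℕ) (hr : ∀ i, (r i).Prime) (hinj : Function.Injective r) (s : ℕ)
    (hs : s ≠ 0) (h : ∀ q, q.Prime → q ∣ s → ∃ i, r i = q) :
    lam r (F_vec r s) = Real.log s := by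
  rw [lam_eq r (fun i => (hr i).one_le), F_nu_vec r hr hinj s hs h, F_de_vec]
  simp

/-- The class of the vector of `s` is the class of `s`. -/
theorem F_chi_vec (r : ι → ℕ) (hr : ∀ i, (r i).Prime) (hinj : Function.Injective r) (P : ℕ)
    (hP : ∀ i, (r i).Coprime P) (s : ℕ)
    (hs : s ≠ 0) (h : ∀ q, q.Prime → q ∣ s → ∃ i, r i = q) :
    (chi r P hP (F_vec r s) : ZMod P) = (s : ZMod P) := by
  have h1 := nu_eq r P hP (F_vec r s)
  rw [F_nu_vec r hr hinj s hs h, F_de_vec] at h1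
  rw [h1]
  simp

/-- The exponent of any prime in `s` is small. -/
theorem F_vec_lt (r : ι → ℕ) (hr : ∀ i, (r i).Prime) (s : ℕ) (hs : s ≠ 0) (D : ℕ)
    (hD : s < 2 ^ D) (i : ι) : F_vec r s i < D := by
  unfold F_vec
  have h1 : r i ^ s.factorization (r i) ≤ s :=
    Nat.le_of_dvd (Nat.pos_of_ne_zero hs) (Nat.ordProj_dvd s (r i))
  have h2 : 2 ^ s.factorization (r i) ≤ r i ^ s.factorization (r i) :=
    Nat.pow_le_pow_left (hr i).two_le _
  have h3 : 2 ^ s.factorization (r i) < 2 ^ D := lt_of_le_of_lt (h2.trans h1) hD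
  have h4 := (Nat.pow_lt_pow_iff_right (by norm_num : 1 < 2)).1 h3
  exact_mod_cast h4

theorem F_vec_nonneg (r : ι → ℕ) (s : ℕ) (i : ι) : 0 ≤ F_vec r s i := by
  unfold F_vec
  exact Int.natCast_nonneg _

theorem F_lamR_le (r : ι → ℕ) (x : ι → ℝ) : |lamR r x| ≤ nmR r x := by
  unfold lamR nmR
  refine (abs_sum_le_sum_abs _ _).trans (sum_le_sum fun i _ => ?_)
  rw [abs_mul, abs_of_nonneg (Real.log_natCast_nonneg (r i))]

end Pool.ZB
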